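import Pool.Agent.K3h88.Erde.Stm

set_option autoImplicit false

/-!
# Products, powers and cubes: plumbing
-/

namespace Pool.Agent.K3h62.Erde

open Pool.Agent.K3h88.Erde

theorem decN_iUnion {V : Type} {P : Set (Sym2 V) → Prop} {r t : ℕ} {E : Set (Sym2 V)}
    (G : Fin r → Set (Sym2 V)) (hd : ∀ i j, i ≠ j → Disjoint (G i) (G j)) (hE : E = ⋃ i, G i)
    (h : ∀ i, DecN P t (G i)) : DecN P (r * t) E := by
  choose F hF hFd hFE using h
  refine ⟨fun k => F (finProdFinEquiv.symm k).1 (finProdFinEquiv.symm k).2, fun k => hF _ _,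
    fun k l hkl => ?_, ?_⟩
  · have hne : finProdFinEquiv.symm k ≠ finProdFinEquiv.symm l :=
      fun h => hkl (finProdFinEquiv.symm.injective h)
    show Disjoint (F (finProdFinEquiv.symm k).1 (finProdFinEquiv.symm k).2)
      (F (finProdFinEquiv.symm l).1 (finProdFinEquiv.symm l).2)
    obtain ⟨⟨a, b⟩, hk⟩ : ∃ p, p = finProdFinEquiv.symm k := ⟨_, rfl⟩
    obtain ⟨⟨c, d⟩, hl⟩ : ∃ p, p = finProdFinEquiv.symm l := ⟨_, rfl⟩
    rw [← hk, ← hl] at hne ⊢
    by_cases hac : a = c
    · subst hac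
      have hbd : b ≠ d := fun h => hne (by rw [h])
      exact hFd a b d hbd
    · refine (hd a c hac).mono ?_ ?_
      · rw [hFE a]
        exact Set.subset_iUnion _ _
      · rw [hFE c]
        exact Set.subset_iUnion _ _
  · rw [hE]
    ext e
    simp only [Set.mem_iUnion]
    constructor
    · rintro ⟨i, hi⟩
      rw [hFE i, Set.mem_iUnion] at hi
      obtain ⟨j, hj⟩ := hi
      refine ⟨finProdFinEquiv (i, j), ?_⟩
      rw [Equiv.symm_apply_apply]
      exact hj
    · rintro ⟨k, hk⟩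
      refine ⟨(finProdFinEquiv.symm k).1, ?_⟩
      rw [hFE]
      exact Set.mem_iUnion.2 ⟨_, hk⟩

theorem box_disjoint {V W : Type} {D D' : Set (Sym2 V)} {E E' : Set (Sym2 W)}
    (hD : ∀ x, s(x, x) ∉ D) (hD' : ∀ x, s(x, x) ∉ D') (h1 : Disjoint D D') (h2 : Disjoint E E') :
    Disjoint (boxE D E) (boxE D' E') := by
  rw [Set.disjoint_left] at h1 h2 ⊢
  rintro e (⟨x, x', y, h3, rfl⟩ | ⟨x, y, y', h3, rfl⟩) (⟨u, u', v, h4, h5⟩ | ⟨u, v, v', h4, h5⟩)
  · have h6 : s(x, x') = s(u, u') := congrArg (Sym2.map Prod.fst) h5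
    rw [h6] at h3
    exact h1 h3 h4
  · have h6 : s(x, x') = s(u, u) := congrArg (Sym2.map Prod.fst) h5
    rw [h6] at h3
    exact hD _ h3
  · have h6 : s(x, x) = s(u, u') := congrArg (Sym2.map Prod.fst) h5
    rw [← h6] at h4
    exact hD' _ h4
  · have h6 : s(y, y') = s(v, v') := congrArg (Sym2.map Prod.snd) h5
    rw [h6] at h3
    exact h2 h3 h4

theorem p3a : StmP3a := by
  intro V W P P' P'' r t D E hP hP' hD hE h
  obtain ⟨F, hF, hFd, hFE⟩ := hD
  obtain ⟨G, hG, hGd, hGE⟩ := hE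
  refine decN_iUnion (fun i => boxE (F i) (G i)) (fun i j hij => ?_) ?_
    (fun i => h _ _ (hF i) (hG i))
  · exact box_disjoint (hP _ (hF i)) (hP _ (hF j)) (hFd i j hij) (hGd i j hij)
  · ext e
    simp only [Set.mem_iUnion]
    constructor
    · rintro (⟨x, x', y, h3, rfl⟩ | ⟨x, y, y', h3, rfl⟩)
      · rw [hFE, Set.mem_iUnion] at h3
        obtain ⟨i, hi⟩ := h3
        exact ⟨i, Or.inl ⟨x, x', y, hi, rfl⟩⟩
      · rw [hGE, Set.mem_iUnion] at h3
        obtain ⟨i, hi⟩ := h3
        exact ⟨i, Or.inr ⟨x, y, y', hi, rfl⟩⟩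
    · rintro ⟨i, ⟨x, x', y, h3, rfl⟩ | ⟨x, y, y', h3, rfl⟩⟩
      · exact Or.inl ⟨x, x', y, by rw [hFE]; exact Set.mem_iUnion.2 ⟨i, h3⟩, rfl⟩
      · exact Or.inr ⟨x, y, y', by rw [hGE]; exact Set.mem_iUnion.2 ⟨i, h3⟩, rfl⟩

theorem p3b : StmP3b := by
  intro V W D D' E E' hD hE h1 h2
  constructor
  · ext e
    constructor
    · rintro (⟨x, x', y, h3 | h3, rfl⟩ | ⟨x, y, y', h3 | h3, rfl⟩)
      · exact Or.inl (Or.inl ⟨x, x', y, h3, rfl⟩)
      · exact Or.inr (Or.inl ⟨x, x', y, h3, rfl⟩)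
      · exact Or.inl (Or.inr ⟨x, y, y', h3, rfl⟩)
      · exact Or.inr (Or.inr ⟨x, y, y', h3, rfl⟩)
    · rintro ((⟨x, x', y, h3, rfl⟩ | ⟨x, y, y', h3, rfl⟩) |
        (⟨x, x', y, h3, rfl⟩ | ⟨x, y, y', h3, rfl⟩))
      · exact Or.inl ⟨x, x', y, Or.inl h3, rfl⟩
      · exact Or.inr ⟨x, y, y', Or.inl h3, rfl⟩
      · exact Or.inl ⟨x, x', y, Or.inr h3, rfl⟩
      · exact Or.inr ⟨x, y, y', Or.inr h3, rfl⟩
  · exact box_disjoint (fun x hx => hD x (Or.inl hx)) (fun x hx => hD x (Or.inr hx)) h1 h2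

/-- an element of the image in terms of representatives -/
theorem mem_map {V V' : Type} {φ : V → V'} {D : Set (Sym2 V)} {x x' : V'}
    (h : s(x, x') ∈ Sym2.map φ '' D) : ∃ a b, φ a = x ∧ φ b = x' ∧ s(a, b) ∈ D := by
  obtain ⟨d, hd, hd'⟩ := h
  induction d using Sym2.ind with
  | h a b =>
    have h1 : s(φ a, φ b) = s(x, x') := hd'
    rcases Sym2.eq_iff.1 h1 with ⟨h2, h3⟩ | ⟨h2, h3⟩
    · exact ⟨a, b, h2, h3, hd⟩
    · exact ⟨b, a, h3, h2, by rw [Sym2.eq_swap]; exact hd⟩

theorem p3c : StmP3c := by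
  intro V W V' W' φ ψ D E hφ hψ
  ext e
  constructor
  · rintro (⟨x, x', y, h3, rfl⟩ | ⟨x, y, y', h3, rfl⟩)
    · obtain ⟨a, b, rfl, rfl, hab⟩ := mem_map h3
      obtain ⟨c, rfl⟩ := hψ.2 y
      exact ⟨s((a, c), (b, c)), Or.inl ⟨a, b, c, hab, rfl⟩, rfl⟩
    · obtain ⟨a, b, rfl, rfl, hab⟩ := mem_map h3
      obtain ⟨c, rfl⟩ := hφ.2 x
      exact ⟨s((c, a), (c, b)), Or.inr ⟨c, a, b, hab, rfl⟩, rfl⟩
  · rintro ⟨e, ⟨x, x', y, h3, rfl⟩ | ⟨x, y, y', h3, rfl⟩, rfl⟩
    · exact Or.inl ⟨φ x, φ x', ψ y, ⟨_, h3, rfl⟩, rfl⟩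
    · exact Or.inr ⟨φ x, ψ y, ψ y', ⟨_, h3, rfl⟩, rfl⟩

theorem p3d : StmP3d := by
  intro ι _ W P P'' r t E hP hE h
  obtain ⟨F, hF, hFd, hFE⟩ := hE
  refine decN_iUnion (fun i => powE ι (F i)) (fun i j hij => ?_) ?_ (fun i => h _ (hF i))
  · rw [Set.disjoint_left]
    rintro e ⟨z, k, w, h1, rfl⟩ ⟨z', k', w', h2, h3⟩
    have h4 : s(z k, w) = s(z' k, Function.update z' k' w' k) := by
      have h5 : s(z k, Function.update z k w k) = s(z' k, Function.update z' k' w' k) :=
        congrArg (Sym2.map (fun y : ι → W => y k)) h3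
      rwa [Function.update_self] at h5
    by_cases hk : k = k'
    · subst hk
      rw [Function.update_self] at h4
      rw [h4] at h1
      exact Set.disjoint_left.1 (hFd i j hij) h1 h2
    · rw [Function.update_of_ne hk] at h4
      rw [h4] at h1
      exact hP _ (hF i) _ h1
  · ext e
    simp only [Set.mem_iUnion]
    constructor
    · rintro ⟨z, k, w, h1, rfl⟩
      rw [hFE, Set.mem_iUnion] at h1
      obtain ⟨i, hi⟩ := h1
      exact ⟨i, z, k, w, hi, rfl⟩
    · rintro ⟨i, z, k, w, h1, rfl⟩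
      exact ⟨z, k, w, by rw [hFE]; exact Set.mem_iUnion.2 ⟨i, h1⟩, rfl⟩

theorem upd_add {m L : ℕ} {W : Type} (φ : ZMod L → W) (y : Fin m → ZMod L) (i : Fin m) :
    (fun j => φ ((y + Pi.single i 1 : Fin m → ZMod L) j)) =
      Function.update (fun j => φ (y j)) i (φ (y i + 1)) := by
  funext j
  by_cases hj : j = i
  · subst hj
    rw [Function.update_self, Pi.add_apply, Pi.single_eq_same]
  · rw [Function.update_of_ne hj, Pi.add_apply, Pi.single_eq_of_ne hj, add_zero]

theorem p3e : StmP3e := by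
  intro m L W φ hφ
  ext e
  constructor
  · rintro ⟨z, i, w, h1, rfl⟩
    obtain ⟨a, b, h2, rfl, u, hu⟩ := mem_map h1
    choose g hg using fun j => hφ.2 (z j)
    have hgi : g i = a := hφ.1 ((hg i).trans h2.symm)
    have hz : z = fun j => φ (g j) := funext fun j => (hg j).symm
    rcases Sym2.eq_iff.1 hu with ⟨h3, h4⟩ | ⟨h3, h4⟩
    · refine ⟨s(g, g + Pi.single i 1), ⟨g, i, rfl⟩, ?_⟩
      have h5 : Sym2.map (fun (y : Fin m → ZMod L) i => φ (y i)) s(g, g + Pi.single i 1) =
          s((fun j => φ (g j)), fun j => φ ((g + Pi.single i 1 : Fin m → ZMod L) j)) := rfl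
      rw [h5, upd_add, hz, hgi, h4, h3]
    · refine ⟨s(Function.update g i u, Function.update g i u + Pi.single i 1),
        ⟨_, i, rfl⟩, ?_⟩
      have h5 : Sym2.map (fun (y : Fin m → ZMod L) i => φ (y i))
          s(Function.update g i u, Function.update g i u + Pi.single i 1) =
          s((fun j => φ (Function.update g i u j)),
            fun j => φ ((Function.update g i u + Pi.single i 1 : Fin m → ZMod L) j)) := rfl
      rw [h5, Sym2.eq_swap, upd_add, h4]
      have h6 : (fun j => φ (Function.update g i u j)) = Function.update z i (φ u) := by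
        funext j
        by_cases hj : j = i
        · subst hj
          rw [Function.update_self, Function.update_self]
        · rw [Function.update_of_ne hj, Function.update_of_ne hj, hg]
      rw [h6, Function.update_self, ← h3, h2, Function.update_idem, Function.update_eq_self]
  · rintro ⟨_, ⟨y, i, rfl⟩, rfl⟩
    refine ⟨fun j => φ (y j), i, φ (y i + 1), ⟨s(y i, y i + 1), ⟨y i, rfl⟩, rfl⟩, ?_⟩
    rw [← upd_add]
    rfl

theorem p4a : StmP4a := by
  intro ι κ _ _ e
  have key : ∀ (x : ι → Bool) (i : ι), (fun j => Function.update x i (!x i) (e.symm j)) =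
      Function.update (fun j => x (e.symm j)) (e i) (!x i) := by
    intro x i
    funext j
    by_cases hj : j = e i
    · subst hj
      rw [Function.update_self, Equiv.symm_apply_apply, Function.update_self]
    · rw [Function.update_of_ne hj, Function.update_of_ne]
      rintro rfl
      exact hj (e.apply_symm_apply j).symm
  ext f
  constructor
  · rintro ⟨x, j, rfl⟩
    refine ⟨s(fun i => x (e i), Function.update (fun i => x (e i)) (e.symm j)
      (!x (e (e.symm j)))), ⟨_, _, rfl⟩, ?_⟩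
    have h5 : Sym2.map (fun (x : ι → Bool) j => x (e.symm j))
        s(fun i => x (e i), Function.update (fun i => x (e i)) (e.symm j)
          (!x (e (e.symm j)))) = s((fun j => x (e (e.symm j))), fun k =>
            Function.update (fun i => x (e i)) (e.symm j) (!x (e (e.symm j))) (e.symm k)) := rfl
    rw [h5, key (fun i => x (e i)) (e.symm j)]
    simp only [Equiv.apply_symm_apply]
  · rintro ⟨_, ⟨x, i, rfl⟩, rfl⟩
    refine ⟨fun j => x (e.symm j), e i, ?_⟩
    have h6 : (!(fun j => x (e.symm j)) (e i)) = !x i := by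
      simp only [Equiv.symm_apply_apply]
    rw [h6, ← key]
    rfl

theorem elim_upd_inl {ι κ : Type} [DecidableEq ι] [DecidableEq κ] (x : ι → Bool) (y : κ → Bool)
    (i : ι) (b : Bool) : Sum.elim (Function.update x i b) y =
      Function.update (Sum.elim x y) (Sum.inl i) b := by
  funext j
  rcases j with j | j
  · by_cases hj : j = i
    · subst hj
      rw [Function.update_self, Sum.elim_inl, Function.update_self]
    · rw [Function.update_of_ne (fun h => hj (Sum.inl_injective h)), Sum.elim_inl,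
        Function.update_of_ne hj, Sum.elim_inl]
  · rw [Function.update_of_ne (by simp), Sum.elim_inr, Sum.elim_inr]

theorem elim_upd_inr {ι κ : Type} [DecidableEq ι] [DecidableEq κ] (x : ι → Bool) (y : κ → Bool)
    (i : κ) (b : Bool) : Sum.elim x (Function.update y i b) =
      Function.update (Sum.elim x y) (Sum.inr i) b := by
  funext j
  rcases j with j | j
  · rw [Function.update_of_ne (by simp), Sum.elim_inl, Sum.elim_inl]
  · by_cases hj : j = i
    · subst hj
      rw [Function.update_self, Sum.elim_inr, Function.update_self]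
    · rw [Function.update_of_ne (fun h => hj (Sum.inr_injective h)), Sum.elim_inr,
        Function.update_of_ne hj, Sum.elim_inr]

/-- an edge of the cube from its first end -/
theorem mem_cube {ι : Type} [DecidableEq ι] {x x' : ι → Bool} (h : s(x, x') ∈ cubeE ι) :
    ∃ i, x' = Function.update x i (!x i) := by
  obtain ⟨u, i, h1⟩ := h
  rcases Sym2.eq_iff.1 h1 with ⟨rfl, rfl⟩ | ⟨rfl, rfl⟩
  · exact ⟨i, rfl⟩
  · refine ⟨i, ?_⟩
    rw [Function.update_self, Bool.not_not, Function.update_idem, Function.update_eq_self]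

theorem p4b : StmP4b := by
  intro ι κ _ _
  ext f
  constructor
  · rintro ⟨x, i | i, rfl⟩
    · refine ⟨s((fun j => x (Sum.inl j), fun j => x (Sum.inr j)),
        (Function.update (fun j => x (Sum.inl j)) i (!x (Sum.inl i)), fun j => x (Sum.inr j))),
        Or.inl ⟨_, _, _, ⟨fun j => x (Sum.inl j), i, rfl⟩, rfl⟩, ?_⟩
      have h5 : Sym2.map (fun p : (ι → Bool) × (κ → Bool) => Sum.elim p.1 p.2)
          s((fun j => x (Sum.inl j), fun j => x (Sum.inr j)),
            (Function.update (fun j => x (Sum.inl j)) i (!x (Sum.inl i)),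
              fun j => x (Sum.inr j))) =
          s(Sum.elim (fun j => x (Sum.inl j)) (fun j => x (Sum.inr j)),
            Sum.elim (Function.update (fun j => x (Sum.inl j)) i (!x (Sum.inl i)))
              (fun j => x (Sum.inr j))) := rfl
      rw [h5, elim_upd_inl]
      have h6 : Sum.elim (fun j => x (Sum.inl j)) (fun j => x (Sum.inr j)) = x :=
        Sum.elim_comp_inl_inr x
      rw [h6]
    · refine ⟨s((fun j => x (Sum.inl j), fun j => x (Sum.inr j)),
        (fun j => x (Sum.inl j), Function.update (fun j => x (Sum.inr j)) i (!x (Sum.inr i)))),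
        Or.inr ⟨_, _, _, ⟨fun j => x (Sum.inr j), i, rfl⟩, rfl⟩, ?_⟩
      have h5 : Sym2.map (fun p : (ι → Bool) × (κ → Bool) => Sum.elim p.1 p.2)
          s((fun j => x (Sum.inl j), fun j => x (Sum.inr j)),
            (fun j => x (Sum.inl j),
              Function.update (fun j => x (Sum.inr j)) i (!x (Sum.inr i)))) =
          s(Sum.elim (fun j => x (Sum.inl j)) (fun j => x (Sum.inr j)),
            Sum.elim (fun j => x (Sum.inl j))
              (Function.update (fun j => x (Sum.inr j)) i (!x (Sum.inr i)))) := rfl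
      rw [h5, elim_upd_inr]
      have h6 : Sum.elim (fun j => x (Sum.inl j)) (fun j => x (Sum.inr j)) = x :=
        Sum.elim_comp_inl_inr x
      rw [h6]
  · rintro ⟨_, ⟨x, x', y, h3, rfl⟩ | ⟨x, y, y', h3, rfl⟩, rfl⟩
    · obtain ⟨i, rfl⟩ := mem_cube h3
      refine ⟨Sum.elim x y, Sum.inl i, ?_⟩
      rw [Sum.elim_inl, ← elim_upd_inl]
      rfl
    · obtain ⟨i, rfl⟩ := mem_cube h3
      refine ⟨Sum.elim x y, Sum.inr i, ?_⟩
      rw [Sum.elim_inr, ← elim_upd_inr]
      rfl

theorem curry_upd {ι κ : Type} [DecidableEq ι] [DecidableEq κ] (z : ι → κ → Bool) (i : ι) (k : κ)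
    (b : Bool) : (fun p : ι × κ => Function.update z i (Function.update (z i) k b) p.1 p.2) =
      Function.update (fun p : ι × κ => z p.1 p.2) (i, k) b := by
  funext p
  obtain ⟨j, l⟩ := p
  by_cases hj : j = i
  · subst hj
    by_cases hl : l = k
    · subst hl
      simp only [Function.update_self]
    · rw [Function.update_of_ne (fun h => hl (Prod.mk.inj h).2)]
      simp only [Function.update_self]
      rw [Function.update_of_ne hl]
  · rw [Function.update_of_ne (fun h => hj (Prod.mk.inj h).1)]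
    simp only []
    rw [Function.update_of_ne hj]

theorem p4c : StmP4c := by
  intro ι κ _ _
  ext f
  constructor
  · rintro ⟨x, ⟨i, k⟩, rfl⟩
    refine ⟨s((fun i k => x (i, k)), Function.update (fun i k => x (i, k)) i
      (Function.update (fun k => x (i, k)) k (!x (i, k)))),
      ⟨_, i, _, ⟨fun k => x (i, k), k, rfl⟩, rfl⟩, ?_⟩
    have h5 : Sym2.map (fun z : ι → (κ → Bool) => fun p : ι × κ => z p.1 p.2)
        s((fun i k => x (i, k)), Function.update (fun i k => x (i, k)) i
          (Function.update (fun k => x (i, k)) k (!x (i, k)))) =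
        s((fun p : ι × κ => x (p.1, p.2)), fun p : ι × κ =>
          Function.update (fun i k => x (i, k)) i
            (Function.update (fun k => x (i, k)) k (!x (i, k))) p.1 p.2) := rfl
    rw [h5, curry_upd (fun i k => x (i, k)) i k (!x (i, k))]
  · rintro ⟨_, ⟨z, i, w, h3, rfl⟩, rfl⟩
    obtain ⟨k, rfl⟩ := mem_cube h3
    refine ⟨fun p => z p.1 p.2, (i, k), ?_⟩
    rw [← curry_upd z i k (!z i k)]
    rfl

end Pool.Agent.K3h62.Erde
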